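import Pool.Agent.U471.RS.Base
import Pool.Agent.U125.NO.Seq

set_option autoImplicit false
set_option linter.unusedSectionVars false

/-!
The vectors of integers near the values of independent real polynomials rarely visit pronull sets.
-/

namespace Pool.Agent.U471.RS

open Finset Polynomial Filter Topology
open Pool.Agent.U471.DQ
open Pool.Agent.N24.RW (ProNull)
open Pool.Agent.U125.NO (Avoids Nul nul_countable)

/-- equidistribution modulo every fixed `q` -/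
theorem class_freq {r : ℕ} (f : Fin r → ℝ[X]) (h : Indep f) (q : ℕ) (hq : 1 ≤ q) (ε : ℝ) (hε : 0 < ε) :
    ∃ N₀ : ℕ, ∀ N : ℕ, N₀ ≤ N → ∀ a : Fin r → ℤ,
      ((({n : ℕ | n < N ∧ ∀ j, (q : ℤ) ∣ ip f n j - a j}).ncard : ℕ) : ℝ) ≤ (1 / (q : ℝ) ^ r + ε) * N := by
  classical
  obtain ⟨d, hd, hf⟩ := deg_bound f
  obtain ⟨ρ, σ, C, hρ, hρ1, hσ, hσ1, hC, H⟩ := real_ped r d hd
  have hq0 : (0 : ℝ) < q := by exact_mod_cast hq
  have hq1 : (1 : ℝ) ≤ q := by exact_mod_cast hq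
  obtain ⟨A, hA⟩ : ∃ A : ℝ, A = (q : ℝ) ^ r * C / ε := ⟨_, rfl⟩
  have hA0 : 0 < A := by rw [hA]; positivity
  obtain ⟨R, hR⟩ : ∃ R : ℝ, R = (q : ℝ) ^ (1 / ρ) + A ^ (1 / σ) + 1 := ⟨_, rfl⟩
  have h1 : 0 < (q : ℝ) ^ (1 / ρ) := by positivity
  have h2 : 0 < A ^ (1 / σ) := by positivity
  have hR1 : 1 ≤ R := by rw [hR]; linarith
  have hRq : (q : ℝ) ≤ R ^ ρ := by
    calc (q : ℝ) = ((q : ℝ) ^ (1 / ρ)) ^ ρ := by
          rw [← Real.rpow_mul hq0.le, one_div_mul_cancel hρ.ne', Real.rpow_one]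
      _ ≤ R ^ ρ := Real.rpow_le_rpow h1.le (by rw [hR]; linarith) hρ.le
  have hRA : A ≤ R ^ σ := by
    calc A = (A ^ (1 / σ)) ^ σ := by
          rw [← Real.rpow_mul hA0.le, one_div_mul_cancel hσ.ne', Real.rpow_one]
      _ ≤ R ^ σ := Real.rpow_le_rpow h2.le (by rw [hR]; linarith) hσ.le
  obtain ⟨N₀, hN₀⟩ := gen_of_indep d f hf h R (by linarith)
  refine ⟨N₀ + 1, fun N hN a => ?_⟩
  have h3 := ped_cls (H N R f (by omega) hR1 hf (hN₀ N (by omega))) q hq hRq a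
  have h4 : (({n : ℕ | n < N ∧ ∀ j, (q : ℤ) ∣ ip f n j - a j}).ncard : ℕ) =
      ((range N).filter (fun n => ∀ j, (q : ℤ) ∣ ip f n j - a j)).card := by
    rw [← Set.ncard_coe_finset]
    congr 1
    ext n
    simp
  rw [h4]
  have h5 : (q : ℝ) ^ r * (C * (N * R ^ (-σ))) ≤ ε * N := by
    have hR0 : (0 : ℝ) < R ^ σ := by positivity
    rw [Real.rpow_neg (by linarith)]
    have h6 : (q : ℝ) ^ r * C ≤ ε * R ^ σ := by
      have := (div_le_iff₀ hε).1 (hA ▸ hRA)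
      linarith
    have h7 : (q : ℝ) ^ r * (C * (N * (R ^ σ)⁻¹)) = ((q : ℝ) ^ r * C) * (R ^ σ)⁻¹ * N := by ring
    rw [h7]
    apply mul_le_mul_of_nonneg_right _ (Nat.cast_nonneg N)
    rw [← div_eq_mul_inv, div_le_iff₀ hR0]
    exact h6
  have h8 := (abs_le.1 (h3.trans h5)).2
  have h9 : (N : ℝ) / (q : ℝ) ^ r = 1 / (q : ℝ) ^ r * N := by ring
  rw [h9] at h8
  have h10 : (((range N).filter (fun n => ∀ j, (q : ℤ) ∣ ip f n j - a j)).card : ℝ) ≤ (1 / (q : ℝ) ^ r + ε) * N := by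
    rw [add_mul]
    have : (((range N).filter (fun n => ∀ j, (q : ℤ) ∣ ip f n j - a j)).card : ℝ) -
      1 / (q : ℝ) ^ r * N ≤ ε * N := h8
    linarith
  exact h10

section
variable {ι : Type} [Fintype ι] [DecidableEq ι]

lemma indep_reindex {r : ℕ} {f : ι → ℝ[X]} (h : Indep f) (e : Fin r ≃ ι) : Indep (fun j => f (e j)) := by
  intro l hl
  obtain ⟨j, hj, hirr⟩ := h (fun i => l (e.symm i)) (by
    intro h0
    apply hl
    funext k
    have := congrFun h0 (e k)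
    simpa using this)
  refine ⟨j, hj, ?_⟩
  have : ∑ i, (l i : ℝ) * (f (e i)).coeff j = ∑ i, (l (e.symm i) : ℝ) * (f i).coeff j := by
    rw [← e.sum_comp]
    simp
  rw [this]
  exact hirr

lemma indep_shift {f : ι → ℝ[X]} (h : Indep f) (z : ι → ℤ) : Indep (fun i => f i + C (z i : ℝ)) := by
  intro l hl
  obtain ⟨j, hj, hirr⟩ := h l hl
  refine ⟨j, hj, ?_⟩
  have : ∑ i, (l i : ℝ) * (f i + C (z i : ℝ)).coeff j = ∑ i, (l i : ℝ) * (f i).coeff j := by
    refine sum_congr rfl fun i _ => ?_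
    rw [coeff_add, coeff_C_of_ne_zero (by omega), add_zero]
  rw [this]
  exact hirr

lemma ip_shift (f : ι → ℝ[X]) (z : ι → ℤ) (n : ℕ) : ip (fun i => f i + C (z i : ℝ)) n = fun i => ip f n i + z i := by
  funext i
  unfold ip
  rw [eval_add, eval_C, Int.floor_add_intCast]

/-- the upper density of the visits to a set of vectors is at most its density modulo `q` -/
theorem upper (f : ι → ℝ[X]) (h : Indep f) (q : ℕ) (hq : 0 < q) (P : (ι → ℤ) → Prop) (ε : ℝ)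
    (hqB : ((((fun (c : ι → ℤ) (i : ι) => (c i : ZMod q)) '' {x | P x}).ncard : ℕ) : ℝ) ≤
      ε * (q : ℝ) ^ Fintype.card ι) (δ : ℝ) (hδ : 0 < δ) :
    ∀ᶠ N : ℕ in atTop, (({n : ℕ | n < N ∧ P (ip f n)}.ncard : ℕ) : ℝ) / (N : ℝ) ≤ ε + δ := by
  classical
  obtain ⟨r, hr⟩ : ∃ r, r = Fintype.card ι := ⟨_, rfl⟩
  have e : Fin r ≃ ι := hr ▸ (Fintype.equivFin ι).symm
  rw [← hr] at hqB
  have : NeZero q := ⟨hq.ne'⟩
  have hq0 : (0 : ℝ) < q := by exact_mod_cast hq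
  have hqr : (0 : ℝ) < (q : ℝ) ^ r := by positivity
  obtain ⟨N₀, hN₀⟩ := class_freq (fun j => f (e j)) (indep_reindex h e) q hq (δ / (q : ℝ) ^ r) (by positivity)
  filter_upwards [eventually_ge_atTop (N₀ + 1)] with N hN
  have hN1 : (0 : ℝ) < N := by exact_mod_cast (by omega : 0 < N)
  obtain ⟨I, hI⟩ : ∃ I : Set (ι → ZMod q), I = (fun (c : ι → ℤ) (i : ι) => (c i : ZMod q)) '' {x | P x} := ⟨_, rfl⟩
  rw [← hI] at hqB
  have hIfin : I.Finite := Set.toFinite _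
  have hsub : {n : ℕ | n < N ∧ P (ip f n)} ⊆
      ⋃ x ∈ hIfin.toFinset, {n : ℕ | n < N ∧ ∀ j, (q : ℤ) ∣ ip (fun j => f (e j)) n j - ((x (e j)).val : ℤ)} := by
    rintro n ⟨hn1, hn2⟩
    rw [Set.mem_iUnion₂]
    refine ⟨fun i => ((ip f n i : ℤ) : ZMod q), hIfin.mem_toFinset.2 (hI ▸ ⟨ip f n, hn2, rfl⟩), hn1, fun j => ?_⟩
    rw [← ZMod.intCast_eq_intCast_iff_dvd_sub, Int.cast_natCast, ZMod.natCast_zmod_val]
    rfl
  have hfinU : (⋃ x ∈ hIfin.toFinset,
      {n : ℕ | n < N ∧ ∀ j, (q : ℤ) ∣ ip (fun j => f (e j)) n j - ((x (e j)).val : ℤ)}).Finite := by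
    refine Set.Finite.subset (Set.finite_Iio N) ?_
    intro n hn
    rw [Set.mem_iUnion₂] at hn
    obtain ⟨_, _, hn⟩ := hn
    exact hn.1
  have h1 : ((({n : ℕ | n < N ∧ P (ip f n)}).ncard : ℕ) : ℝ) ≤
      ∑ x ∈ hIfin.toFinset, (1 / (q : ℝ) ^ r + δ / (q : ℝ) ^ r) * N := by
    calc ((({n : ℕ | n < N ∧ P (ip f n)}).ncard : ℕ) : ℝ) ≤ ((∑ x ∈ hIfin.toFinset,
          ({n : ℕ | n < N ∧ ∀ j, (q : ℤ) ∣ ip (fun j => f (e j)) n j - ((x (e j)).val : ℤ)}).ncard : ℕ) : ℝ) := by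
          refine Nat.cast_le.2 ((Set.ncard_le_ncard hsub hfinU).trans ?_)
          exact Finset.set_ncard_biUnion_le _ _
      _ ≤ _ := by
          rw [Nat.cast_sum]
          refine sum_le_sum fun x _ => ?_
          exact hN₀ N (by omega) (fun j => ((x (e j)).val : ℤ))
  rw [sum_const, nsmul_eq_mul] at h1
  have h2 : ((hIfin.toFinset.card : ℕ) : ℝ) ≤ ε * (q : ℝ) ^ r := by
    rw [← Set.ncard_eq_toFinset_card I hIfin]
    exact hqB
  have h2' : ((hIfin.toFinset.card : ℕ) : ℝ) ≤ (q : ℝ) ^ r := by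
    have h3 : hIfin.toFinset.card ≤ Fintype.card (ι → ZMod q) := Finset.card_le_univ _
    rw [Fintype.card_fun, ZMod.card, ← hr] at h3
    exact_mod_cast h3
  rw [div_le_iff₀ hN1]
  refine h1.trans ?_
  have h4 : ((hIfin.toFinset.card : ℕ) : ℝ) * (1 / (q : ℝ) ^ r) ≤ ε := by
    rw [mul_one_div, div_le_iff₀ hqr]
    exact h2
  have h5 : ((hIfin.toFinset.card : ℕ) : ℝ) * (δ / (q : ℝ) ^ r) ≤ δ := by
    calc ((hIfin.toFinset.card : ℕ) : ℝ) * (δ / (q : ℝ) ^ r) ≤ (q : ℝ) ^ r * (δ / (q : ℝ) ^ r) :=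
          mul_le_mul_of_nonneg_right h2' (by positivity)
      _ = δ := by field_simp
  rw [← mul_assoc]
  apply mul_le_mul_of_nonneg_right _ hN1.le
  rw [mul_add]
  linarith

/-- **the integer parts avoid pronull sets** -/
theorem avoids (f : ι → ℝ[X]) (h : Indep f) : Avoids (ip f) := by
  intro P hP
  rw [tendsto_order]
  constructor
  · intro a ha
    exact Eventually.of_forall fun N => lt_of_lt_of_le ha (by positivity)
  intro a ha
  obtain ⟨q, hq, -, hqB⟩ := hP 1 one_pos (a / 3) (by positivity)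
  filter_upwards [upper f h q hq P (a / 3) hqB (a / 3) (by positivity)] with N hN
  linarith

/-- the integer vectors at the distance at most `K` from the vector of the values of the polynomials at `n` -/
def Close (K : ℕ) (f : ι → ℝ[X]) (n : ℕ) (c : ι → ℤ) : Prop := ∀ i, |(c i : ℝ) - (f i).eval (n : ℝ)| ≤ K

/-- the difference to the integer parts -/
lemma close_diff {K : ℕ} {f : ι → ℝ[X]} {n : ℕ} {c : ι → ℤ} (h : Close K f n c) :
    ∃ z : ι → ℤ, z ∈ Fintype.piFinset (fun _ : ι => Icc (-(K : ℤ)) (K + 1)) ∧ c = fun i => ip f n i + z i := by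
  refine ⟨fun i => c i - ip f n i, ?_, by funext i; ring⟩
  rw [Fintype.mem_piFinset]
  intro i
  have h1 := abs_le.1 (h i)
  have h2 := Int.floor_le ((f i).eval (n : ℝ))
  have h3 := Int.lt_floor_add_one ((f i).eval (n : ℝ))
  rw [mem_Icc]
  unfold ip
  constructor
  · have : -(K : ℝ) ≤ ((c i - ⌊(f i).eval (n : ℝ)⌋ : ℤ) : ℝ) := by
      push_cast
      linarith [h1.1]
    exact_mod_cast this
  · have : ((c i - ⌊(f i).eval (n : ℝ)⌋ : ℤ) : ℝ) < ((K + 1 : ℤ) : ℝ) + 0 := by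
      push_cast
      linarith [h1.2]
    have h4 : ((c i - ⌊(f i).eval (n : ℝ)⌋ : ℤ) : ℝ) < ((K + 1 : ℤ) : ℝ) := by linarith
    have h5 : (c i - ⌊(f i).eval (n : ℝ)⌋ : ℤ) < K + 1 := by exact_mod_cast h4
    exact h5.le

lemma nul_biUnion {κ : Type} (s : Finset κ) (A : κ → Set ℕ) (h : ∀ z ∈ s, Nul (A z)) : Nul (⋃ z ∈ s, A z) := by
  classical
  induction s using Finset.induction_on with
  | empty => simpa using Pool.Agent.U125.NO.nul_empty
  | insert a s ha ih =>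
    rw [Finset.set_biUnion_insert]
    exact (h a (mem_insert_self _ _)).union (ih fun z hz => h z (mem_insert_of_mem hz))

lemma nul_mono {A B : Set ℕ} (h : A ⊆ B) (hB : Nul B) : Nul A := by
  refine squeeze_zero (fun N => by positivity) (fun N => ?_) hB
  refine div_le_div_of_nonneg_right (Nat.cast_le.2 (Set.ncard_le_ncard ?_ ((Set.finite_Iio N).subset fun _ ht => ht.1)))
    (Nat.cast_nonneg N)
  rintro t ⟨h1, h2⟩
  exact ⟨h1, h h2⟩

/-- from the integer parts of all translates to all vectors near the values -/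
theorem near_nul (f : ι → ℝ[X]) (G : ℕ → (ι → ℤ) → Prop)
    (H : ∀ z : ι → ℤ, Nul {n | G n (ip (fun i => f i + C (z i : ℝ)) n)}) (K : ℕ) :
    Nul {n | ∃ c, Close K f n c ∧ G n c} := by
  refine nul_mono ?_ (nul_biUnion (Fintype.piFinset (fun _ : ι => Icc (-(K : ℤ)) (K + 1)))
    (fun z => {n | G n (ip (fun i => f i + C (z i : ℝ)) n)}) (fun z _ => H z))
  rintro n ⟨c, hc, hG⟩
  obtain ⟨z, hz, rfl⟩ := close_diff hc
  rw [Set.mem_iUnion₂]
  refine ⟨z, hz, ?_⟩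
  rw [Set.mem_ofPred_eq, ip_shift]
  exact hG

/-- **The transfer.** If for every sequence of vectors which avoids pronull sets the exceptional set of times can be
chosen of density zero, uniformly in the parameters `a`, then there is one set of times of density zero for all the
vectors near the values of countably many systems of polynomials. -/
theorem transfer {A : Type*} {B : Type} [Countable B] (S : B → ι → ℝ[X]) (hS : ∀ b, Indep (S b))
    (G : A → (ι → ℤ) → Prop)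
    (H : ∀ c : ℕ → ι → ℤ, Avoids c → ∃ E : Set ℕ, Nul E ∧ ∀ a, {n : ℕ | n ∉ E ∧ ¬ G a (c n)}.Finite) :
    ∃ E : Set ℕ, Nul E ∧ ∀ (b : B) (K : ℕ) (a : A), {n : ℕ | n ∉ E ∧ ∃ c, Close K (S b) n c ∧ ¬ G a c}.Finite := by
  classical
  have h1 : ∀ x : B × (ι → ℤ), ∃ E : Set ℕ, Nul E ∧
      ∀ a, {n : ℕ | n ∉ E ∧ ¬ G a (fun i => ip (S x.1) n i + x.2 i)}.Finite := by
    intro x
    have h2 := avoids (fun i => S x.1 i + C (x.2 i : ℝ)) (indep_shift (hS x.1) x.2)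
    obtain ⟨E, hE1, hE2⟩ := H _ h2
    refine ⟨E, hE1, fun a => ?_⟩
    simpa only [ip_shift] using hE2 a
  choose E hE1 hE2 using h1
  obtain ⟨E', hE'1, hE'2⟩ := nul_countable E hE1
  refine ⟨E', hE'1, fun b K a => ?_⟩
  have hfin : (⋃ z ∈ Fintype.piFinset (fun _ : ι => Icc (-(K : ℤ)) (K + 1)),
      (E (b, z) \ E' ∪ {n : ℕ | n ∉ E (b, z) ∧ ¬ G a (fun i => ip (S b) n i + z i)})).Finite := by
    refine Set.Finite.biUnion (Finset.finite_toSet _) fun z _ => ?_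
    exact (hE'2 (b, z)).union (hE2 (b, z) a)
  refine hfin.subset ?_
  rintro n ⟨hn, c, hc, hG⟩
  obtain ⟨z, hz, rfl⟩ := close_diff hc
  rw [Set.mem_iUnion₂]
  refine ⟨z, hz, ?_⟩
  by_cases hmem : n ∈ E (b, z)
  · exact Or.inl ⟨hmem, hn⟩
  · exact Or.inr ⟨hmem, hG⟩

/-- one set of times of density zero for countably many pronull sets, countably many systems of polynomials and all
vectors near their values -/
theorem near_diag {B : Type} [Countable B] (S : B → ι → ℝ[X]) (hS : ∀ b, Indep (S b)) {K : Type} [Countable K]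
    (P : K → (ι → ℤ) → Prop) (hP : ∀ a, ProNull {x | P a x}) :
    ∃ E : Set ℕ, Nul E ∧ ∀ (b : B) (D : ℕ) (a : K), {n : ℕ | n ∉ E ∧ ∃ c, Close D (S b) n c ∧ P a c}.Finite := by
  obtain ⟨E, h1, h2⟩ := transfer S hS (fun (a : K) (c : ι → ℤ) => ¬ P a c) (fun c hc => by
    obtain ⟨E, h1, h2⟩ := hc.diag P hP
    refine ⟨E, h1, fun a => ?_⟩
    simpa only [not_not] using h2 a)
  refine ⟨E, h1, fun b D a => ?_⟩
  simpa only [not_not] using h2 b D a

end

end Pool.Agent.U471.RS
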