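import Pool.Agent.U471.DQ.Type

set_option autoImplicit false
set_option linter.unusedSectionVars false

/-!
The integer parts of the values of real polynomials in residue classes: power saving, and equidistribution for every
fixed modulus.
-/

namespace Pool.Agent.U471.RS

open Finset Polynomial
open Pool.Agent.U471.DQ

/-- the indicator function of a residue class minus its mean -/
noncomputable def ic {r : ℕ} (q : ℕ) (ρ : Fin r → ℤ) (u : Fin r → ℤ) : ℝ :=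
  open Classical in (if ∀ j, (q : ℤ) ∣ u j - ρ j then (1 : ℝ) else 0) - 1 / (q : ℝ) ^ r

lemma ic_per {r : ℕ} (q : ℕ) (ρ : Fin r → ℤ) : Per (ic q ρ) q := by
  intro u u' h
  unfold ic
  have : (∀ j, (q : ℤ) ∣ u j - ρ j) ↔ ∀ j, (q : ℤ) ∣ u' j - ρ j := by
    refine forall_congr' fun j => ?_
    have h1 := h j
    constructor
    · intro h2
      have := dvd_sub h2 h1
      rwa [show u j - ρ j - (u j - u' j) = u' j - ρ j by ring] at this
    · intro h2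
      have := dvd_add h2 h1
      rwa [show u' j - ρ j + (u j - u' j) = u j - ρ j by ring] at this
  simp only [this]

lemma ic_abs {r : ℕ} (q : ℕ) (hq : 1 ≤ q) (ρ u : Fin r → ℤ) : |ic q ρ u| ≤ 1 := by
  unfold ic
  have h1 : (1 : ℝ) ≤ (q : ℝ) ^ r := one_le_pow₀ (by exact_mod_cast hq)
  have h2 : 1 / (q : ℝ) ^ r ≤ 1 := by
    rw [div_le_one (by linarith)]
    exact h1
  have h3 : 0 < 1 / (q : ℝ) ^ r := by positivity
  split_ifs
  · rw [abs_le]; constructor <;> linarith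
  · rw [abs_le]; constructor <;> linarith

lemma ic_rs {r : ℕ} (q : ℕ) (hq : 1 ≤ q) (ρ : Fin r → ℤ) : rs q (ic q ρ) = 0 := by
  classical
  have hq0 : (0 : ℤ) < q := by exact_mod_cast hq
  have hq0' : (0 : ℝ) < (q : ℝ) ^ r := by
    have : (0 : ℝ) < q := by exact_mod_cast hq
    positivity
  obtain ⟨t0, ht0⟩ : ∃ t0 : Fin r → ℕ, ∀ j, ((t0 j : ℕ) : ℤ) = ρ j % q :=
    ⟨fun j => (ρ j % q).toNat, fun j => Int.toNat_of_nonneg (Int.emod_nonneg _ hq0.ne')⟩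
  have hf : (bx r q).filter (fun t => ∀ j, (q : ℤ) ∣ (t j : ℤ) - ρ j) = {t0} := by
    ext t
    rw [mem_filter, mem_bx, mem_singleton]
    constructor
    · rintro ⟨h1, h2⟩
      funext j
      have h3 : ρ j ≡ (t j : ℤ) [ZMOD q] := (Int.modEq_iff_dvd).2 (h2 j)
      have h4 : (t j : ℤ) % q = t j := Int.emod_eq_of_lt (by positivity) (by exact_mod_cast h1 j)
      have h5 : ((t0 j : ℕ) : ℤ) = t j := by rw [ht0, h3, h4]
      exact_mod_cast h5.symm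
    · rintro rfl
      refine ⟨fun j => ?_, fun j => ?_⟩
      · have := Int.emod_lt_of_pos (ρ j) hq0
        rw [← ht0] at this
        exact_mod_cast this
      · rw [ht0]
        exact (Int.modEq_iff_dvd).1 (Int.mod_modEq (ρ j) q).symm
  unfold rs ic
  rw [sum_sub_distrib, ← sum_filter, hf, sum_singleton, sum_const, card_bx, nsmul_eq_mul]
  push_cast
  field_simp
  ring

open Classical in
/-- the number of the members in a residue class -/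
lemma ped_cls {r : ℕ} {N : ℕ} {v : ℕ → Fin r → ℤ} {Q ρ σ C : ℝ} (h : PED (range N) v Q ρ σ C) (q : ℕ) (hq : 1 ≤ q)
    (hqQ : (q : ℝ) ≤ Q ^ ρ) (a : Fin r → ℤ) :
    |(((range N).filter (fun n => ∀ j, (q : ℤ) ∣ v n j - a j)).card : ℝ) - N / (q : ℝ) ^ r| ≤
      (q : ℝ) ^ r * (C * (N * Q ^ (-σ))) := by
  have h1 := h.est q hq hqQ (ic q a) (ic_per q a) (ic_abs q hq a) (ic_rs q hq a)
  rw [card_range] at h1
  have h2 : ∑ ω ∈ range N, ic q a (v ω) =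
      (((range N).filter (fun n => ∀ j, (q : ℤ) ∣ v n j - a j)).card : ℝ) - N / (q : ℝ) ^ r := by
    unfold ic
    rw [sum_sub_distrib, sum_boole, sum_const, card_range, nsmul_eq_mul]
    rw [mul_one_div]
  rw [← h2]
  exact h1

section
variable {ι : Type} [Fintype ι]

/-- independence: every integer combination `∑ l_i f_i`, `l ≠ 0`, has an irrational coefficient at a power `x ^ j`,
`j ≥ 1` -/
def Indep (f : ι → ℝ[X]) : Prop :=
  ∀ l : ι → ℤ, l ≠ 0 → ∃ j : ℕ, 1 ≤ j ∧ Irrational (∑ i, (l i : ℝ) * (f i).coeff j)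

/-- finite type: for constants `w`, `c > 0` every integer combination `∑ l_i f_i`, `l ≠ 0`, has a coefficient at a
power `x ^ j`, `j ≥ 1`, at the distance at least `c / (∑ |l_i|) ^ w` from all integers -/
def FiniteType (f : ι → ℝ[X]) : Prop :=
  ∃ (w : ℕ) (c : ℝ), 0 < c ∧ ∀ l : ι → ℤ, l ≠ 0 → ∃ j : ℕ, 1 ≤ j ∧
    ∀ b : ℤ, c / (∑ i, (|l i| : ℝ)) ^ w ≤ |∑ i, (l i : ℝ) * (f i).coeff j - b|

/-- the integer parts of the values -/
noncomputable def ip (f : ι → ℝ[X]) (n : ℕ) (i : ι) : ℤ := ⌊(f i).eval (n : ℝ)⌋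

/-- a bound for the degrees -/
lemma deg_bound (f : ι → ℝ[X]) : ∃ d : ℕ, 1 ≤ d ∧ ∀ i, (f i).natDegree ≤ d := by
  refine ⟨1 + ∑ i, (f i).natDegree, by omega, fun i => ?_⟩
  have := single_le_sum (f := fun i => (f i).natDegree) (fun _ _ => Nat.zero_le _) (mem_univ i)
  omega

lemma sum_abs_pos {l : ι → ℤ} (hl : l ≠ 0) : (1 : ℝ) ≤ ∑ i, (|l i| : ℝ) := by
  obtain ⟨i, hi⟩ : ∃ i, l i ≠ 0 := by
    by_contra hcon
    push Not at hcon
    exact hl (funext hcon)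
  have h1 : (1 : ℝ) ≤ |(l i : ℝ)| := by
    have : (1 : ℤ) ≤ |l i| := Int.one_le_abs hi
    exact_mod_cast this
  exact h1.trans (single_le_sum (f := fun i => |(l i : ℝ)|) (fun _ _ => abs_nonneg _) (mem_univ i))

lemma sum_coeff_zero {f : ι → ℝ[X]} {d j : ℕ} (hf : ∀ i, (f i).natDegree ≤ d) (hj : d < j) (l : ι → ℤ) :
    ∑ i, (l i : ℝ) * (f i).coeff j = 0 := by
  refine sum_eq_zero fun i _ => ?_
  rw [coeff_eq_zero_of_natDegree_lt (lt_of_le_of_lt (hf i) hj), mul_zero]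

end

/-- a fixed bound -/
theorem gen_of_indep {r : ℕ} (d : ℕ) (f : Fin r → ℝ[X]) (hf : ∀ i, (f i).natDegree ≤ d) (h : Indep f) (R : ℝ) (hR : 0 < R) :
    ∃ N₀ : ℕ, ∀ N : ℕ, N₀ ≤ N → Gen d N R f := by
  classical
  have hfin : {l : Fin r → ℤ | ∀ i, (|l i| : ℝ) ≤ R}.Finite := by
    refine (Set.Finite.pi' (fun _ : Fin r => Set.finite_Icc (-⌈R⌉) ⌈R⌉)).subset ?_
    intro l hl i
    have h1 := hl i
    rw [abs_le] at h1
    refine ⟨?_, ?_⟩
    · have : (-(⌈R⌉ : ℝ)) ≤ l i := by linarith [Int.le_ceil R]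
      exact_mod_cast this
    · have : (l i : ℝ) ≤ ⌈R⌉ := by linarith [Int.le_ceil R]
      exact_mod_cast this
  have key : ∀ l : Fin r → ℤ, ∃ N₀ : ℕ, ∀ N : ℕ, N₀ ≤ N → l ≠ 0 → ∃ j : ℕ, 1 ≤ j ∧ j ≤ d ∧
      ∀ b : ℤ, R / (N : ℝ) ^ j < |∑ i, (l i : ℝ) * (f i).coeff j - b| := by
    intro l
    by_cases hl : l = 0
    · exact ⟨0, fun N _ h0 => absurd hl h0⟩
    obtain ⟨j, hj1, hj2⟩ := h l hl
    have hjd : j ≤ d := by
      by_contra hcon
      rw [sum_coeff_zero hf (by omega) l] at hj2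
      exact (not_irrational_zero) hj2
    obtain ⟨α, hα⟩ : ∃ α : ℝ, α = ∑ i, (l i : ℝ) * (f i).coeff j := ⟨_, rfl⟩
    rw [← hα] at hj2
    have hpos : 0 < |α - round α| := by
      rw [abs_pos, sub_ne_zero]
      exact hj2.ne_int _
    obtain ⟨N₀, hN₀⟩ := exists_nat_gt (R / |α - round α|)
    refine ⟨N₀ + 1, fun N hN _ => ⟨j, hj1, hjd, fun b => ?_⟩⟩
    rw [← hα]
    refine lt_of_lt_of_le ?_ (round_le α b)
    have hN1 : (1 : ℝ) ≤ N := by exact_mod_cast (by omega : 1 ≤ N)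
    have hN2 : (N₀ : ℝ) ≤ N := by exact_mod_cast (by omega : N₀ ≤ N)
    have h1 : R / (N : ℝ) ^ j ≤ R / N := by
      apply div_le_div_of_nonneg_left hR.le (by linarith)
      calc (N : ℝ) = (N : ℝ) ^ 1 := (pow_one _).symm
        _ ≤ (N : ℝ) ^ j := pow_le_pow_right₀ hN1 hj1
    refine lt_of_le_of_lt h1 ?_
    rw [div_lt_iff₀ (by linarith), mul_comm, ← div_lt_iff₀ hpos]
    linarith
  choose N₀ hN₀ using key
  refine ⟨∑ l ∈ hfin.toFinset, N₀ l, fun N hN l hl hlR => ?_⟩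
  refine hN₀ l N (le_trans ?_ hN) hl
  exact single_le_sum (f := N₀) (fun _ _ => Nat.zero_le _) (hfin.mem_toFinset.2 hlR)

/-- a power of `N` -/
theorem gen_of_finite {r : ℕ} (d : ℕ) (f : Fin r → ℝ[X]) (hf : ∀ i, (f i).natDegree ≤ d) (h : FiniteType f) :
    ∃ β : ℝ, 0 < β ∧ β ≤ 1 ∧ ∃ N₀ : ℕ, ∀ N : ℕ, N₀ ≤ N → Gen d N ((N : ℝ) ^ β) f := by
  obtain ⟨w, c, hc, hw⟩ := h
  obtain ⟨β, hβ⟩ : ∃ β : ℝ, β = 1 / (2 * ((w : ℝ) + 1)) := ⟨_, rfl⟩
  have hw0 : (0 : ℝ) ≤ w := Nat.cast_nonneg _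
  have hβ0 : 0 < β := by rw [hβ]; positivity
  have hβw : β * (w + 1) = 1 / 2 := by rw [hβ]; field_simp
  have hβ1 : β ≤ 1 := by nlinarith
  -- `(r ^ w / c) ^ 2 < N`
  obtain ⟨N₀, hN₀⟩ := exists_nat_gt (((r : ℝ) ^ w / c) ^ 2)
  refine ⟨β, hβ0, hβ1, N₀ + 1, fun N hN l hl hlR => ?_⟩
  have hN1 : (1 : ℝ) ≤ N := by exact_mod_cast (by omega : 1 ≤ N)
  have hN0 : (0 : ℝ) < N := by linarith
  have hN2 : (N₀ : ℝ) ≤ N := by exact_mod_cast (by omega : N₀ ≤ N)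
  obtain ⟨j, hj1, hj2⟩ := hw l hl
  have hs1 := sum_abs_pos hl
  have hs2 : ∑ i, (|l i| : ℝ) ≤ r * (N : ℝ) ^ β := by
    refine (sum_le_card_nsmul _ _ _ fun i _ => hlR i).trans ?_
    rw [card_univ, Fintype.card_fin, nsmul_eq_mul]
  have hjd : j ≤ d := by
    by_contra hcon
    have h1 := hj2 0
    rw [sum_coeff_zero hf (by omega) l] at h1
    simp only [Int.cast_zero, sub_zero, abs_zero] at h1
    have h2 : 0 < c / (∑ i, (|l i| : ℝ)) ^ w := by positivity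
    linarith
  refine ⟨j, hj1, hjd, fun b => lt_of_lt_of_le ?_ (hj2 b)⟩
  have h1 : (N : ℝ) ^ β / (N : ℝ) ^ j ≤ (N : ℝ) ^ β / N := by
    apply div_le_div_of_nonneg_left (by positivity) hN0
    calc (N : ℝ) = (N : ℝ) ^ 1 := (pow_one _).symm
      _ ≤ (N : ℝ) ^ j := pow_le_pow_right₀ hN1 hj1
  refine lt_of_le_of_lt h1 ?_
  have hNβ : 0 < (N : ℝ) ^ β := by positivity
  have h2 : c / (r * (N : ℝ) ^ β) ^ w ≤ c / (∑ i, (|l i| : ℝ)) ^ w := by
    apply div_le_div_of_nonneg_left hc.le (by positivity)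
    exact pow_le_pow_left₀ (by linarith) hs2 w
  refine lt_of_lt_of_le ?_ h2
  have hr1 : (0 : ℝ) < r := by
    rcases Nat.eq_zero_or_pos r with h0 | h0
    · subst h0
      exact absurd (Subsingleton.elim l 0) hl
    · exact_mod_cast h0
  rw [div_lt_div_iff₀ hN0 (by positivity), mul_pow]
  -- `N ^ β * (r ^ w * N ^ (β w)) < c N`
  have h3 : (N : ℝ) ^ β * ((r : ℝ) ^ w * ((N : ℝ) ^ β) ^ w) = (r : ℝ) ^ w * (N : ℝ) ^ ((1 : ℝ) / 2) := by
    have h4 : (N : ℝ) ^ β * ((N : ℝ) ^ β) ^ w = (N : ℝ) ^ ((1 : ℝ) / 2) := by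
      rw [← Real.rpow_natCast ((N : ℝ) ^ β) w, ← Real.rpow_mul hN0.le, ← Real.rpow_add hN0]
      congr 1
      linarith
    calc _ = (r : ℝ) ^ w * ((N : ℝ) ^ β * ((N : ℝ) ^ β) ^ w) := by ring
      _ = _ := by rw [h4]
  rw [h3]
  have h5 : (r : ℝ) ^ w / c < (N : ℝ) ^ ((1 : ℝ) / 2) := by
    rw [← Real.sqrt_eq_rpow]
    apply Real.lt_sqrt_of_sq_lt
    linarith
  rw [div_lt_iff₀ hc] at h5
  have h6 : (N : ℝ) = (N : ℝ) ^ ((1 : ℝ) / 2) * (N : ℝ) ^ ((1 : ℝ) / 2) := by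
    rw [← Real.rpow_add hN0]
    norm_num
  have h7 : 0 < (N : ℝ) ^ ((1 : ℝ) / 2) := by positivity
  calc (r : ℝ) ^ w * (N : ℝ) ^ ((1 : ℝ) / 2) < ((N : ℝ) ^ ((1 : ℝ) / 2) * c) * (N : ℝ) ^ ((1 : ℝ) / 2) :=
        mul_lt_mul_of_pos_right h5 h7
    _ = c * ((N : ℝ) ^ ((1 : ℝ) / 2) * (N : ℝ) ^ ((1 : ℝ) / 2)) := by ring
    _ = c * N := by rw [← h6]

/-- coefficients of finite irrationality exponent at powers which do not occur in the other polynomials -/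
theorem finiteType_of_private {ι : Type} [Fintype ι] [DecidableEq ι] (f : ι → ℝ[X])
    (h : ∀ i, ∃ j, 1 ≤ j ∧ FinType ((f i).coeff j) ∧ ∀ i', i' ≠ i → (f i').coeff j = 0) : FiniteType f := by
  choose j hj1 hj3 hj4 using h
  choose w c hc hw using hj3
  obtain ⟨W, hW⟩ : ∃ W : ℕ, W = ∑ i, w i := ⟨_, rfl⟩
  obtain ⟨c0, hc0⟩ : ∃ c0 : ℝ, c0 = ∏ i, min (c i) 1 := ⟨_, rfl⟩
  have hc00 : 0 < c0 := by
    rw [hc0]
    exact prod_pos fun i _ => lt_min (hc i) one_pos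
  have hc0i : ∀ i, c0 ≤ c i := by
    intro i
    rw [hc0, ← mul_prod_erase univ _ (mem_univ i)]
    have h1 : ∏ x ∈ univ.erase i, min (c x) 1 ≤ 1 :=
      prod_le_one (fun x _ => (lt_min (hc x) one_pos).le) fun x _ => min_le_right _ _
    have h2 : 0 ≤ min (c i) 1 := (lt_min (hc i) one_pos).le
    calc min (c i) 1 * ∏ x ∈ univ.erase i, min (c x) 1 ≤ min (c i) 1 * 1 := mul_le_mul_of_nonneg_left h1 h2
      _ ≤ c i := by rw [mul_one]; exact min_le_left _ _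
  refine ⟨W, c0, hc00, fun l hl => ?_⟩
  obtain ⟨i, hi⟩ : ∃ i, l i ≠ 0 := by
    by_contra hcon
    push Not at hcon
    exact hl (funext hcon)
  have hs1 := sum_abs_pos hl
  refine ⟨j i, hj1 i, fun b => ?_⟩
  have hsum : ∑ i', (l i' : ℝ) * (f i').coeff (j i) = (l i : ℝ) * (f i).coeff (j i) := by
    refine sum_eq_single i (fun i' _ hne => ?_) (fun hcon => absurd (mem_univ i) hcon)
    rw [hj4 i i' hne, mul_zero]
  rw [hsum]
  have hq1 : 1 ≤ (l i).natAbs := Int.natAbs_pos.2 hi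
  have habs : (((l i).natAbs : ℕ) : ℝ) = |(l i : ℝ)| := by
    rw [Nat.cast_natAbs, Int.cast_abs]
  have hle : (((l i).natAbs : ℕ) : ℝ) ≤ ∑ i, (|l i| : ℝ) := by
    rw [habs]
    exact single_le_sum (f := fun i => |(l i : ℝ)|) (fun _ _ => abs_nonneg _) (mem_univ i)
  have hwW : w i ≤ W := by
    rw [hW]
    exact single_le_sum (f := w) (fun _ _ => Nat.zero_le _) (mem_univ i)
  have hbound : c0 / (∑ i, (|l i| : ℝ)) ^ W ≤ c i / (((l i).natAbs : ℕ) : ℝ) ^ (w i) := by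
    have hq0 : (0 : ℝ) < (((l i).natAbs : ℕ) : ℝ) := by exact_mod_cast hq1
    apply div_le_div₀ (hc i).le (hc0i i) (by positivity)
    calc (((l i).natAbs : ℕ) : ℝ) ^ (w i) ≤ (∑ i, (|l i| : ℝ)) ^ (w i) := pow_le_pow_left₀ hq0.le hle _
      _ ≤ (∑ i, (|l i| : ℝ)) ^ W := pow_le_pow_right₀ hs1 hwW
  refine hbound.trans ?_
  rcases le_or_gt 0 (l i) with h0 | h0
  · have h1 := hw i (l i).natAbs hq1 b
    have e1 : (((l i).natAbs : ℕ) : ℝ) = (l i : ℝ) := by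
      rw [habs, abs_of_nonneg (by exact_mod_cast h0)]
    rw [e1] at h1 ⊢
    exact h1
  · have h1 := hw i (l i).natAbs hq1 (-b)
    have e1 : (((l i).natAbs : ℕ) : ℝ) = -(l i : ℝ) := by
      rw [habs, abs_of_neg (by exact_mod_cast h0)]
    rw [e1] at h1 ⊢
    have e2 : -(l i : ℝ) * (f i).coeff (j i) - ((-b : ℤ) : ℝ) = -((l i : ℝ) * (f i).coeff (j i) - b) := by
      push_cast
      ring
    rw [e2, abs_neg] at h1
    exact h1

end Pool.Agent.U471.RS
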