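import Pool.Agent.U471.RS.Nat
import Pool.Agent.N647.TS.MulL

/-!
# Sums of completely multiplicative functions at all vectors near the values of real polynomials

The analogue of `Pool.Agent.N647.TS.mt_thin`.
-/

set_option autoImplicit false

namespace Pool.Agent.U471.RS

open Finset
open Pool.Agent.N647.TS
open Pool.Agent.X22.MT
open Pool.Agent.X22.ND (hp)

open Classical in
theorem mt_near (d : ℕ) (hd : 1 ≤ d) (f : Fin d → Polynomial ℝ) (hf : FiniteType f)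
    (hpos : ∀ i, 0 < (f i).leadingCoeff) (K₀ : ℕ) (L : ℕ) (hL0 : L ≠ 0) (δ : ℝ) (hδ : 0 < δ) (A B C : ℕ) :
    ∃ κ₀ : ℝ, 0 < κ₀ ∧ ∃ y₀ : ℕ, ∀ y N : ℕ, y₀ ≤ y →
    ∀ (κ : Type) (Λ : ℕ → Finset κ), (∀ x, y ≤ x → (Λ x).card ≤ x ^ B) →
    ∀ (F : ℕ → κ → ℕ → (Fin d → ℕ) → ℂ), (∀ x, y ≤ x → ∀ l ∈ Λ x, Fam d L x ((x : ℝ) ^ (δ / 16)) (F x l)) →
    ∀ (v w : ℕ → κ → ℕ → ℂ), (∀ x l n, ‖v x l n‖ ≤ 1) → (∀ x l n, ‖w x l n‖ ≤ 1) →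
    ∀ E : (Fin d → ℕ) → Prop,
    (∀ m, (∀ x : ℕ, y ≤ x → (x : ℝ) ≤ (N : ℝ) ^ κ₀ → ∀ l ∈ Λ x, ∀ τ : ℝ, |τ| ≤ (x : ℝ) ^ C → ∀ χ : ℕ → ℂ,
      (∀ n, ‖χ n‖ ≤ 1) → (∀ n n' : ℕ, 1 ≤ n → 1 ≤ n' → χ (n * n') = χ n * χ n') →
      (∀ n ∈ nn L x, χ n = w x l n * F x l n m) → ∀ M M' : ℕ, M' ≤ x →
      ‖∑ n ∈ Ioc M M', v x l n * χ n * hp τ n‖ ≤ (x : ℝ) ^ (1 / 2 + δ)) → E m) →
    (((Ioc N (2 * N)).filter fun t => ∃ m, CloseN K₀ f t m ∧ ¬ E m).card : ℝ) ≤ 1 / (y : ℝ) ^ A * N := by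
  obtain ⟨M₀, y₁, hM⟩ := mt_law2W d L hL0 δ hδ (A + 1) B C
  obtain ⟨κ₀, hκ₀, y₂, h₂⟩ := poly_conv hd f hf hpos K₀ M₀ A
  refine ⟨κ₀, hκ₀, y₁ + y₂, fun y N hy κ Λ hΛ F hF v w hv hw E hE => ?_⟩
  exact h₂ y N (by omega) _ (fun S u H hW E' hE' => hM S u H y hW (by omega) κ Λ hΛ F hF v w hv hw E' hE') E hE

end Pool.Agent.U471.RS
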