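import Pool.Agent.U471.RS.Well
import Pool.Agent.U471.RS.Avoid
import Pool.Agent.N647.TS.Thin

set_option autoImplicit false
set_option linter.unusedSectionVars false

/-!
Vectors of natural numbers near the values of real polynomials of finite type with positive leading coefficients: from
well distributed families to all near vectors.
-/

namespace Pool.Agent.U471.RS

open Finset Filter
open Pool.Agent.N647.TS (WellN wellN_of_well)

/-- the vectors of natural numbers at the distance at most `K` from the vector of the values of the polynomials -/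
def CloseN {d : ℕ} (K : ℕ) (f : Fin d → Polynomial ℝ) (n : ℕ) (m : Fin d → ℕ) : Prop :=
  ∀ i, |(m i : ℝ) - (f i).eval (n : ℝ)| ≤ K

lemma exists_le {ι : Type} (s : Finset ι) (θ : ι → ℝ) (hθ : ∀ i, 0 < θ i) :
    ∃ t : ℝ, 0 < t ∧ ∀ i ∈ s, t ≤ θ i := by
  classical
  induction s using Finset.induction_on with
  | empty => exact ⟨1, one_pos, fun z hz => absurd hz (Finset.notMem_empty _)⟩
  | insert a s ha ih =>
    obtain ⟨t, ht0, ht⟩ := ih
    refine ⟨min t (θ a), lt_min ht0 (hθ a), fun z hz => ?_⟩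
    rcases mem_insert.1 hz with rfl | hz
    · exact min_le_right _ _
    · exact (min_le_left _ _).trans (ht z hz)

lemma deg_pos {ι : Type} [Fintype ι] [DecidableEq ι] {f : ι → Polynomial ℝ} (h : FiniteType f) (i : ι) :
    0 < (f i).degree := by
  obtain ⟨w, c, hc, H⟩ := h
  have hne : (Pi.single i 1 : ι → ℤ) ≠ 0 := by
    intro h0
    have := congrFun h0 i
    rw [Pi.single_eq_same, Pi.zero_apply] at this
    exact one_ne_zero this
  obtain ⟨j, hj, hb⟩ := H (Pi.single i 1) hne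
  have h1 : ∑ k, ((Pi.single i 1 : ι → ℤ) k : ℝ) * (f k).coeff j = (f i).coeff j := by
    rw [Finset.sum_eq_single i]
    · rw [Pi.single_eq_same]; simp
    · intro k _ hk
      rw [Pi.single_eq_of_ne hk]; simp
    · intro h; exact absurd (mem_univ i) h
  have h2 := hb 0
  rw [h1, Int.cast_zero, sub_zero] at h2
  have h3 : (f i).coeff j ≠ 0 := by
    intro h0
    rw [h0, abs_zero] at h2
    have hs := sum_abs_pos hne
    have : 0 < c / (∑ k, (|(Pi.single i 1 : ι → ℤ) k| : ℝ)) ^ w := by positivity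
    linarith
  have h4 := Polynomial.le_degree_of_ne_zero h3
  exact lt_of_lt_of_le (by exact_mod_cast (by omega : 0 < j)) h4

lemma eval_large {ι : Type} [Fintype ι] [DecidableEq ι] {f : ι → Polynomial ℝ} (h : FiniteType f)
    (hpos : ∀ i, 0 < (f i).leadingCoeff) (B : ℝ) : ∃ N₀ : ℕ, ∀ n : ℕ, N₀ ≤ n → ∀ i, B ≤ (f i).eval (n : ℝ) := by
  have h1 : ∀ᶠ n : ℕ in atTop, ∀ i, B ≤ (f i).eval (n : ℝ) := by
    rw [eventually_all]
    intro i
    exact ((Polynomial.tendsto_atTop_of_leadingCoeff_nonneg (f i) (deg_pos h i) (hpos i).le).comp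
      (tendsto_natCast_atTop_atTop (R := ℝ))).eventually_ge_atTop B
  exact eventually_atTop.1 h1

theorem wellN_poly {d : ℕ} (hd : 1 ≤ d) (f : Fin d → Polynomial ℝ) (h : FiniteType f)
    (hpos : ∀ i, 0 < (f i).leadingCoeff) (z : Fin d → ℤ) :
    ∃ κ : ℝ, 0 < κ ∧ ∃ N₀ : ℕ, ∀ N : ℕ, N₀ ≤ N → ∀ H : ℕ, (H : ℝ) ≤ (N : ℝ) ^ κ →
      WellN (Ioc N (2 * N)) (fun n i => (ip f n i + z i).toNat) H := by
  haveI : Nonempty (Fin d) := ⟨⟨0, hd⟩⟩
  obtain ⟨κ, hκ, N₁, h₁⟩ := poly_well (fun i => f i + Polynomial.C (z i : ℝ)) (finite_shift h z)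
  obtain ⟨N₂, h₂⟩ := eval_large h hpos (∑ i, |(z i : ℝ)| + 1)
  refine ⟨κ, hκ, N₁ + N₂ + 1, fun N hN H hH => ?_⟩
  refine wellN_of_well (h₁ N (by omega) H hH) ?_
  intro n hn i
  rw [mem_Ioc] at hn
  rw [ip_shift]
  refine (Int.toNat_of_nonneg ?_).symm
  have h3 := h₂ n (by omega) i
  have h4 : |(z i : ℝ)| ≤ ∑ i, |(z i : ℝ)| := single_le_sum (f := fun i => |(z i : ℝ)|) (fun _ _ => abs_nonneg _) (mem_univ i)
  have h5 := Int.lt_floor_add_one ((f i).eval (n : ℝ))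
  have h6 := neg_abs_le (z i : ℝ)
  have h7 : (0 : ℝ) ≤ ((ip f n i + z i : ℤ) : ℝ) := by
    unfold ip
    push_cast
    linarith
  exact_mod_cast h7

open Classical in
/-- **From well distributed families to all vectors of natural numbers near the values.** -/
theorem poly_conv {d : ℕ} (hd : 1 ≤ d) (f : Fin d → Polynomial ℝ) (h : FiniteType f)
    (hpos : ∀ i, 0 < (f i).leadingCoeff) (K M A : ℕ) : ∃ κ₀ : ℝ, 0 < κ₀ ∧ ∃ y₀ : ℕ, ∀ y N : ℕ, y₀ ≤ y →
    ∀ R : ℕ → (Fin d → ℕ) → Prop,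
    (∀ (S : Finset ℕ) (v : ℕ → Fin d → ℕ) (H : ℕ), WellN S v H → ∀ E : (Fin d → ℕ) → Prop,
      (∀ m, (∀ n : ℕ, y ≤ n → n ^ M ≤ 2 * H + 1 → R n m) → E m) →
      ((S.filter fun t => ¬ E (v t)).card : ℝ) ≤ 1 / (y : ℝ) ^ (A + 1) * S.card) →
    ∀ E : (Fin d → ℕ) → Prop, (∀ m, (∀ n : ℕ, y ≤ n → (n : ℝ) ≤ (N : ℝ) ^ κ₀ → R n m) → E m) →
    (((Ioc N (2 * N)).filter fun t => ∃ m, CloseN K f t m ∧ ¬ E m).card : ℝ) ≤ 1 / (y : ℝ) ^ A * N := by
  obtain ⟨s, hs⟩ : ∃ s : Finset (Fin d → ℤ), s = Fintype.piFinset (fun _ : Fin d => Icc (-(K : ℤ)) (K + 1)) := ⟨_, rfl⟩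
  choose κ hκ N₀ hN₀ using wellN_poly hd f h hpos
  obtain ⟨κ₁, hκ₁, hle⟩ := exists_le s κ hκ
  obtain ⟨N₁, hN₁⟩ : ∃ N₁ : ℕ, N₁ = ∑ z ∈ s, N₀ z + 1 := ⟨_, rfl⟩
  obtain ⟨κ₀, hκ₀⟩ : ∃ κ₀ : ℝ, κ₀ = κ₁ / (M + 1) := ⟨_, rfl⟩
  have hκ0 : 0 < κ₀ := by rw [hκ₀]; positivity
  obtain ⟨y₂, hy₂⟩ := exists_nat_gt ((N₁ : ℝ) ^ κ₀)
  refine ⟨κ₀, hκ0, y₂ + s.card + 1, fun y N hy R hM E hE => ?_⟩
  have hy1 : (1 : ℝ) ≤ y := by exact_mod_cast (by omega : 1 ≤ y)
  by_cases hN : N₁ ≤ N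
  · have hN1 : (1 : ℝ) ≤ N := by exact_mod_cast (by omega : 1 ≤ N)
    obtain ⟨J, hJ⟩ : ∃ J : ℕ, J = ⌊(N : ℝ) ^ κ₁⌋₊ := ⟨_, rfl⟩
    have hJ1 : (J : ℝ) ≤ (N : ℝ) ^ κ₁ := by
      rw [hJ]
      exact Nat.floor_le (Real.rpow_nonneg (Nat.cast_nonneg _) _)
    have hJ2 : (N : ℝ) ^ κ₁ < J + 1 := by
      rw [hJ]
      exact Nat.lt_floor_add_one _
    have hw : ∀ z ∈ s, WellN (Ioc N (2 * N)) (fun n i => (ip f n i + z i).toNat) J := by
      intro z hz
      have h1 := single_le_sum (f := N₀) (fun _ _ => Nat.zero_le _) hz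
      exact hN₀ z N (by omega) J (hJ1.trans (Real.rpow_le_rpow_of_exponent_le hN1 (hle z hz)))
    have hE' : ∀ m : Fin d → ℕ, (∀ n : ℕ, y ≤ n → n ^ M ≤ 2 * J + 1 → R n m) → E m := by
      intro m hm
      refine hE m fun n hyn hnN => hm n hyn ?_
      have hn1 : (1 : ℝ) ≤ n := by exact_mod_cast (by omega : 1 ≤ n)
      have hN0 : (0 : ℝ) ≤ N := Nat.cast_nonneg _
      have h3 : (n : ℝ) ^ (M + 1) ≤ (N : ℝ) ^ κ₁ := by
        calc (n : ℝ) ^ (M + 1) ≤ ((N : ℝ) ^ κ₀) ^ (M + 1) := pow_le_pow_left₀ (by positivity) hnN _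
          _ = (N : ℝ) ^ κ₁ := by
              rw [← Real.rpow_natCast, ← Real.rpow_mul hN0, hκ₀]
              congr 1
              push_cast
              field_simp
      have h4 : (n : ℝ) ^ M ≤ (n : ℝ) ^ (M + 1) := pow_le_pow_right₀ hn1 (by omega)
      have h5 : (n : ℝ) ^ M ≤ ((2 * J + 1 : ℕ) : ℝ) := by
        push_cast
        have : (0 : ℝ) ≤ J := Nat.cast_nonneg _
        linarith
      exact_mod_cast h5
    have hone : ∀ z ∈ s, (((Ioc N (2 * N)).filter fun t => ¬ E (fun i => (ip f t i + z i).toNat)).card : ℝ) ≤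
        1 / (y : ℝ) ^ (A + 1) * N := by
      intro z hz
      have := hM (Ioc N (2 * N)) _ J (hw z hz) E hE'
      rw [Nat.card_Ioc, show 2 * N - N = N by omega] at this
      exact this
    have hsub : ((Ioc N (2 * N)).filter fun t => ∃ m, CloseN K f t m ∧ ¬ E m) ⊆
        s.biUnion fun z => (Ioc N (2 * N)).filter fun t => ¬ E (fun i => (ip f t i + z i).toNat) := by
      intro t ht
      rw [mem_filter] at ht
      obtain ⟨ht, m, hm, hbad⟩ := ht
      have hc : Close K f t (fun i => (m i : ℤ)) := by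
        intro i
        have := hm i
        push_cast
        exact this
      obtain ⟨z, hz, hmz⟩ := close_diff hc
      rw [← hs] at hz
      rw [mem_biUnion]
      refine ⟨z, hz, ?_⟩
      rw [mem_filter]
      refine ⟨ht, ?_⟩
      have : (fun i => (ip f t i + z i).toNat) = m := by
        funext i
        rw [← congrFun hmz i, Int.toNat_natCast]
      rw [this]
      exact hbad
    calc (((Ioc N (2 * N)).filter fun t => ∃ m, CloseN K f t m ∧ ¬ E m).card : ℝ) ≤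
          ((∑ z ∈ s, ((Ioc N (2 * N)).filter fun t => ¬ E (fun i => (ip f t i + z i).toNat)).card : ℕ) : ℝ) :=
          Nat.cast_le.2 ((card_le_card hsub).trans card_biUnion_le)
      _ ≤ ∑ z ∈ s, 1 / (y : ℝ) ^ (A + 1) * N := by
          rw [Nat.cast_sum]
          exact sum_le_sum hone
      _ = s.card * (1 / (y : ℝ) ^ (A + 1)) * N := by rw [sum_const, nsmul_eq_mul]; ring
      _ ≤ y * (1 / (y : ℝ) ^ (A + 1)) * N := by
          apply mul_le_mul_of_nonneg_right _ (Nat.cast_nonneg N)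
          apply mul_le_mul_of_nonneg_right _ (by positivity)
          exact_mod_cast (by omega : s.card ≤ y)
      _ = 1 / (y : ℝ) ^ A * N := by
          rw [pow_succ]
          field_simp
  · have hall : ∀ m, E m := by
      intro m
      refine hE m fun n hyn hnN => ?_
      exfalso
      have h2 : (N : ℝ) ^ κ₀ ≤ (N₁ : ℝ) ^ κ₀ := by
        apply Real.rpow_le_rpow (Nat.cast_nonneg _) _ hκ0.le
        exact_mod_cast (by omega : N ≤ N₁)
      have h3 : (y₂ : ℝ) ≤ n := by exact_mod_cast (by omega : y₂ ≤ n)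
      linarith
    rw [Finset.filter_false_of_mem (fun t _ => by
      rintro ⟨m, -, hm⟩
      exact hm (hall m)), card_empty, Nat.cast_zero]
    positivity

end Pool.Agent.U471.RS
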