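import Pool.Agent.U471.RS.Base
import Pool.Agent.N666.TM.Thin

set_option autoImplicit false
set_option linter.unusedSectionVars false

/-!
The integer parts of the values of real polynomials of finite type are well distributed modulo all `q ≤ N ^ κ`.
-/

namespace Pool.Agent.U471.RS

open Finset Polynomial
open Pool.Agent.U471.DQ
open Pool.Agent.N666.VE (Equi cls)
open Pool.Agent.N666.TM (Well well_of_equi)

theorem poly_equi {r : ℕ} (f : Fin r → ℝ[X]) (h : FiniteType f) :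
    ∃ δ : ℝ, 0 < δ ∧ δ ≤ 1 / 2 ∧ Equi (fun N => Ioc N (2 * N)) (fun (n : ℕ) i => (f i).eval (n : ℝ)) δ := by
  classical
  obtain ⟨d, hd, hf⟩ := deg_bound f
  obtain ⟨ρ, σ, C, hρ, hρ1, hσ, hσ1, hC, H⟩ := real_ped r d hd
  obtain ⟨β, hβ, hβ1, N₁, hN₁⟩ := gen_of_finite d f hf h
  have hr0 : (0 : ℝ) ≤ r := Nat.cast_nonneg r
  obtain ⟨m, hm⟩ : ∃ m : ℝ, m = min ρ σ := ⟨_, rfl⟩
  have hm0 : 0 < m := by rw [hm]; exact lt_min hρ hσ
  have hmρ : m ≤ ρ := by rw [hm]; exact min_le_left _ _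
  have hmσ : m ≤ σ := by rw [hm]; exact min_le_right _ _
  have hm1 : m ≤ 1 := hmρ.trans hρ1
  obtain ⟨δ, hδ⟩ : ∃ δ : ℝ, δ = β * m / (2 * (r + 1)) := ⟨_, rfl⟩
  have hδ0 : 0 < δ := by rw [hδ]; positivity
  have hβm : β * m ≤ 1 := mul_le_one₀ hβ1 hm0.le hm1
  have hδr : (r + 1) * δ = β * m / 2 := by rw [hδ]; field_simp
  have hδ2 : δ ≤ β * m / 2 := by nlinarith
  refine ⟨δ, hδ0, by linarith, ?_⟩
  obtain ⟨N₂, hN₂⟩ := Filter.eventually_atTop.1 (((tendsto_rpow_atTop (by positivity : 0 < β * m / 2)).comp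
    tendsto_natCast_atTop_atTop).eventually_ge_atTop (6 * C))
  refine ⟨N₁ + N₂ + 1, fun N hN q hq hqN a => ?_⟩
  have hN1 : (1 : ℝ) ≤ N := by exact_mod_cast (by omega : 1 ≤ N)
  have hN0 : (0 : ℝ) < N := by linarith
  have hbig : 6 * C ≤ (N : ℝ) ^ (β * m / 2) := hN₂ N (by omega)
  -- one range
  have one : ∀ M : ℕ, N + 1 ≤ M → (M : ℝ) ≤ 3 * N →
      |(((range M).filter (fun n : ℕ => ∀ j, (q : ℤ) ∣ ⌊(f j).eval (n : ℝ)⌋ - a j)).card : ℝ) - M / (q : ℝ) ^ r| ≤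
        (N : ℝ) ^ (1 - δ) / 2 := by
    intro M hM1 hM3
    have hMN : (N : ℝ) ≤ M := by exact_mod_cast (by omega : N ≤ M)
    have hM0 : (0 : ℝ) < M := by linarith
    have hM1' : (1 : ℝ) ≤ M := by linarith
    have hQ1 : (1 : ℝ) ≤ (M : ℝ) ^ β := Real.one_le_rpow hM1' hβ.le
    have hqQ : (q : ℝ) ≤ ((M : ℝ) ^ β) ^ ρ := by
      rw [← Real.rpow_mul hM0.le]
      calc (q : ℝ) ≤ (N : ℝ) ^ δ := hqN
        _ ≤ (N : ℝ) ^ (β * ρ) := by
            apply Real.rpow_le_rpow_of_exponent_le hN1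
            have : β * m ≤ β * ρ := by nlinarith
            have h0 : 0 ≤ β * m := by positivity
            linarith
        _ ≤ _ := Real.rpow_le_rpow hN0.le hMN (by positivity)
    have h1 := ped_cls (H M ((M : ℝ) ^ β) f (by omega) hQ1 hf (hN₁ M (by omega))) q hq hqQ a
    refine h1.trans ?_
    have e1 : ((M : ℝ) ^ β) ^ (-σ) = (M : ℝ) ^ (-(β * σ)) := by
      rw [← Real.rpow_mul hM0.le]
      congr 1
      ring
    have h2 : (M : ℝ) ^ (-(β * σ)) ≤ (N : ℝ) ^ (-(β * m)) := by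
      calc (M : ℝ) ^ (-(β * σ)) ≤ (N : ℝ) ^ (-(β * σ)) := by
            apply Real.rpow_le_rpow_of_nonpos hN0 hMN
            have : 0 ≤ β * σ := by positivity
            linarith
        _ ≤ _ := by
            apply Real.rpow_le_rpow_of_exponent_le hN1
            nlinarith
    have h3 : (q : ℝ) ^ r ≤ (N : ℝ) ^ (r * δ) := by
      calc (q : ℝ) ^ r ≤ ((N : ℝ) ^ δ) ^ r := pow_le_pow_left₀ (Nat.cast_nonneg q) hqN r
        _ = _ := by rw [← Real.rpow_natCast, ← Real.rpow_mul hN0.le, mul_comm]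
    have hC0 : 0 ≤ C := by linarith
    calc (q : ℝ) ^ r * (C * (M * ((M : ℝ) ^ β) ^ (-σ))) ≤ (N : ℝ) ^ (r * δ) * (C * (3 * N * (N : ℝ) ^ (-(β * m)))) := by
          rw [e1]
          gcongr
      _ = 3 * C * ((N : ℝ) ^ (r * δ) * (N * (N : ℝ) ^ (-(β * m)))) := by ring
      _ = 3 * C * (N : ℝ) ^ (r * δ + 1 - β * m) := by
          congr 1
          nth_rewrite 2 [← Real.rpow_one (N : ℝ)]
          rw [← Real.rpow_add hN0, ← Real.rpow_add hN0]
          congr 1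
          ring
      _ ≤ ((N : ℝ) ^ (β * m / 2) / 2) * (N : ℝ) ^ (r * δ + 1 - β * m) := by
          apply mul_le_mul_of_nonneg_right _ (by positivity)
          linarith
      _ = (N : ℝ) ^ (1 - δ) / 2 := by
          rw [div_mul_eq_mul_div, ← Real.rpow_add hN0]
          congr 2
          have : (r : ℝ) * δ + δ = β * m / 2 := by linarith
          linarith
  have h1 := one (N + 1) (le_refl _) (by push_cast; linarith)
  have h2 := one (2 * N + 1) (by omega) (by push_cast; linarith)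
  have hcard : ((range (2 * N + 1)).filter (fun n : ℕ => ∀ j, (q : ℤ) ∣ ⌊(f j).eval (n : ℝ)⌋ - a j)).card =
      ((range (N + 1)).filter (fun n : ℕ => ∀ j, (q : ℤ) ∣ ⌊(f j).eval (n : ℝ)⌋ - a j)).card +
      (cls (Ioc N (2 * N)) (fun (n : ℕ) i => (f i).eval (n : ℝ)) q a).card := by
    unfold cls
    have hset : range (2 * N + 1) = range (N + 1) ∪ Ioc N (2 * N) := by
      ext n
      simp only [mem_union, mem_range, mem_Ioc]
      omega
    rw [← card_union_of_disjoint]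
    · rw [← filter_union, ← hset]
    · rw [disjoint_left]
      intro n h3 h4
      have h5 := mem_range.1 (mem_filter.1 h3).1
      have h6 := mem_Ioc.1 (mem_filter.1 h4).1
      omega
  have hIoc : ((Ioc N (2 * N)).card : ℝ) = N := by
    rw [Nat.card_Ioc]
    congr 1
    omega
  have hcard' : ((cls (Ioc N (2 * N)) (fun (n : ℕ) i => (f i).eval (n : ℝ)) q a).card : ℝ) =
      (((range (2 * N + 1)).filter (fun n : ℕ => ∀ j, (q : ℤ) ∣ ⌊(f j).eval (n : ℝ)⌋ - a j)).card : ℝ) -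
      (((range (N + 1)).filter (fun n : ℕ => ∀ j, (q : ℤ) ∣ ⌊(f j).eval (n : ℝ)⌋ - a j)).card : ℝ) := by
    rw [hcard]
    push_cast
    ring
  rw [hcard', hIoc]
  have e3 : (((range (2 * N + 1)).filter (fun n : ℕ => ∀ j, (q : ℤ) ∣ ⌊(f j).eval (n : ℝ)⌋ - a j)).card : ℝ) -
      (((range (N + 1)).filter (fun n : ℕ => ∀ j, (q : ℤ) ∣ ⌊(f j).eval (n : ℝ)⌋ - a j)).card : ℝ) - N / (q : ℝ) ^ r =
      ((((range (2 * N + 1)).filter (fun n : ℕ => ∀ j, (q : ℤ) ∣ ⌊(f j).eval (n : ℝ)⌋ - a j)).card : ℝ) -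
        ((2 * N + 1 : ℕ) : ℝ) / (q : ℝ) ^ r) -
      ((((range (N + 1)).filter (fun n : ℕ => ∀ j, (q : ℤ) ∣ ⌊(f j).eval (n : ℝ)⌋ - a j)).card : ℝ) -
        ((N + 1 : ℕ) : ℝ) / (q : ℝ) ^ r) := by
    push_cast
    ring
  rw [e3]
  refine (abs_sub _ _).trans ?_
  linarith

section
variable {ι : Type} [Fintype ι] [DecidableEq ι]

lemma finite_reindex {r : ℕ} {f : ι → ℝ[X]} (h : FiniteType f) (e : Fin r ≃ ι) : FiniteType (fun j => f (e j)) := by
  obtain ⟨w, c, hc, hw⟩ := h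
  refine ⟨w, c, hc, fun l hl => ?_⟩
  obtain ⟨j, hj, hb⟩ := hw (fun i => l (e.symm i)) (by
    intro h0
    apply hl
    funext k
    have := congrFun h0 (e k)
    simpa using this)
  refine ⟨j, hj, fun b => ?_⟩
  have h1 := hb b
  have e1 : ∑ i, (l i : ℝ) * (f (e i)).coeff j = ∑ i, (l (e.symm i) : ℝ) * (f i).coeff j := by
    rw [← e.sum_comp]
    simp
  have e2 : ∑ i, (|l i| : ℝ) = ∑ i, (|l (e.symm i)| : ℝ) := by
    rw [← e.sum_comp]
    simp
  rw [e1, e2]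
  exact h1

lemma finite_shift {f : ι → ℝ[X]} (h : FiniteType f) (z : ι → ℤ) : FiniteType (fun i => f i + C (z i : ℝ)) := by
  obtain ⟨w, c, hc, hw⟩ := h
  refine ⟨w, c, hc, fun l hl => ?_⟩
  obtain ⟨j, hj, hb⟩ := hw l hl
  refine ⟨j, hj, fun b => ?_⟩
  have h1 := hb b
  have : ∑ i, (l i : ℝ) * (f i + C (z i : ℝ)).coeff j = ∑ i, (l i : ℝ) * (f i).coeff j := by
    refine sum_congr rfl fun i _ => ?_
    rw [coeff_add, coeff_C_of_ne_zero (by omega), add_zero]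
  rw [this]
  exact h1

/-- **the integer parts are well distributed** -/
theorem poly_well [Nonempty ι] (f : ι → ℝ[X]) (h : FiniteType f) :
    ∃ κ : ℝ, 0 < κ ∧ ∃ N₀ : ℕ, ∀ N : ℕ, N₀ ≤ N → ∀ H : ℕ, (H : ℝ) ≤ (N : ℝ) ^ κ →
      Well (Ioc N (2 * N)) (ip f) H := by
  classical
  obtain ⟨r, hr⟩ : ∃ r, r = Fintype.card ι := ⟨_, rfl⟩
  have e : Fin r ≃ ι := hr ▸ (Fintype.equivFin ι).symm
  obtain ⟨δ, hδ, hδ2, hE⟩ := poly_equi (fun j => f (e j)) (finite_reindex h e)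
  obtain ⟨κ, hκ, N₀, hN₀⟩ := well_of_equi (ι := ι) hδ hE ⟨1, fun N hN => by
    have hN1 : (1 : ℝ) ≤ N := by exact_mod_cast hN
    rw [Nat.card_Ioc]
    have e1 : ((2 * N - N : ℕ) : ℝ) = (N : ℝ) ^ (1 : ℝ) := by
      rw [Real.rpow_one]
      congr 1
      omega
    rw [e1]
    exact Real.rpow_le_rpow_of_exponent_le hN1 (by linarith)⟩ e.symm
  refine ⟨κ, hκ, N₀, fun N hN H hH => ?_⟩
  have h1 := hN₀ N hN H hH
  have h2 : (fun (n : ℕ) (i : ι) => ⌊(f (e (e.symm i))).eval (n : ℝ)⌋) = ip f := by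
    funext n i
    rw [Equiv.apply_symm_apply]
    rfl
  rw [h2] at h1
  exact h1

end

end Pool.Agent.U471.RS
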